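import Pool.Agent.Q231.LMD.Stubs

/-!
# Local metric dimension of planar graphs: a hitting set of small size gives a selection
-/

set_option autoImplicit false

namespace Pool.Agent.Q217.LMD

open Pool.Agent.NPC Pool.Agent.NPC.Cnt Pool.Agent.H49R2.PC Pool.Agent.Q231.LMD

theorem hit_idx {L : List Pt} {K : List (Pt × ℕ)} {T : Finset ℕ} (hT : Hit (EL L K) T)
    {p : Pt} {t : ℕ} (h : (p, t) ∈ idx L K) : ∃ u ∈ att (spL L p t), u ∈ T :=
  hT _ (List.mem_map_of_mem (f := fun i : Pt × ℕ => spL L i.1 i.2) h)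

theorem mem_pair {L : List Pt} {K : List (Pt × ℕ)} {s : Pt} (hs : s ∈ L) {i : Pt × ℕ}
    (h : i ∈ pairIdx L s) : i ∈ idx L K :=
  List.mem_append_right _ (List.mem_append_left _ (List.mem_flatMap.2 ⟨s, hs, h⟩))

theorem mem_tri {L : List Pt} {K : List (Pt × ℕ)} {t : Pt × ℕ} (ht : t ∈ K) {k : ℕ}
    (hk : k < 6) : (t.1, 15 + 6 * t.2 + k) ∈ idx L K :=
  List.mem_append_right _ (List.mem_append_right _ (List.mem_flatMap.2 ⟨t, ht,
    List.mem_map.2 ⟨k, List.mem_range.2 hk, rfl⟩⟩))

theorem no_adj {L : List Pt} {K : List (Pt × ℕ)} {T : Finset ℕ}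
    (hT : Hit (EL L K) T)
    (hpar : ∀ s ∈ L, ∀ j < 12, (vl s.1 s.2 j ∈ T ↔ ((j % 2 = 1) ↔ vl s.1 s.2 1 ∈ T)))
    {s t : Pt} (hs : s ∈ L) (ht : t ∈ L) (hs1 : vl s.1 s.2 1 ∈ T) (ht1 : vl t.1 t.2 1 ∈ T)
    (h : t = (s.1 + 1, s.2) ∨ t = (s.1, s.2 + 1) ∨ (t.1 + 1 = s.1 ∧ t.2 = s.2 + 1)) : False := by
  have hne : ∀ u ∈ L, vl u.1 u.2 1 ∈ T → ∀ j < 12, j % 2 = 0 → vl u.1 u.2 j ∉ T := by
    intro u hu hu1 j hj hj2 hmem
    have := (hpar u hu j hj).1 hmem
    have h2 := this.2 hu1
    omega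
  rcases h with h | h | h
  · subst h
    have hi : ((s, 12) : Pt × ℕ) ∈ pairIdx L s := by
      simp [pairIdx, ht]
    obtain ⟨u, hu, huT⟩ := hit_idx hT (mem_pair (K := K) hs hi)
    have e : att (spL L s 12) = [vl s.1 s.2 0, vl (s.1 + 1) s.2 6] := by
      simp [att, spL, tabE, tab, sh, ht]
    rw [e] at hu
    simp only [List.mem_cons, List.not_mem_nil, or_false] at hu
    rcases hu with rfl | rfl
    · exact hne s hs hs1 0 (by norm_num) rfl huT
    · exact hne _ ht ht1 6 (by norm_num) rfl huT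
  · subst h
    have hi : ((s, 13) : Pt × ℕ) ∈ pairIdx L s := by
      simp [pairIdx, ht]
    obtain ⟨u, hu, huT⟩ := hit_idx hT (mem_pair (K := K) hs hi)
    have e : att (spL L s 13) = [vl s.1 s.2 2, vl s.1 (s.2 + 1) 8] := by
      simp [att, spL, tabE, tab, sh, ht]
    rw [e] at hu
    simp only [List.mem_cons, List.not_mem_nil, or_false] at hu
    rcases hu with rfl | rfl
    · exact hne s hs hs1 2 (by norm_num) rfl huT
    · exact hne _ ht ht1 8 (by norm_num) rfl huT
  · obtain ⟨x, y⟩ := s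
    obtain ⟨x', y'⟩ := t
    obtain ⟨h1, h2⟩ := h
    simp only at h1 h2
    subst h1 h2
    have hi : (((x', y), 14) : Pt × ℕ) ∈ pairIdx L (x' + 1, y) := by
      simp [pairIdx, ht]
    obtain ⟨u, hu, huT⟩ := hit_idx hT (mem_pair (K := K) hs hi)
    have e : att (spL L (x', y) 14) = [vl (x' + 1) y 4, vl x' (y + 1) 10] := by
      simp [att, spL, tabE, tab, sh, ht]
    rw [e] at hu
    simp only [List.mem_cons, List.not_mem_nil, or_false] at hu
    rcases hu with rfl | rfl
    · exact hne _ hs hs1 4 (by norm_num) rfl huT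
    · exact hne _ ht ht1 10 (by norm_num) rfl huT

theorem H2i_ok : S_H2i := by
  intro h2a L K hLK T hT hcard
  classical
  obtain ⟨hpar, htri⟩ := h2a L K hLK T hT hcard
  refine ⟨L.toFinset.filter (fun s => vl s.1 s.2 1 ∈ T), ?_, ?_, ?_⟩
  · intro s hs
    exact List.mem_toFinset.1 (Finset.mem_filter.1 hs).1
  · intro s hs t ht hadj
    obtain ⟨hs, hs1⟩ := Finset.mem_filter.1 hs
    obtain ⟨ht, ht1⟩ := Finset.mem_filter.1 ht
    rw [List.mem_toFinset] at hs ht
    have h1 := fun h => no_adj hT hpar hs ht hs1 ht1 h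
    have h2 := fun h => no_adj hT hpar ht hs ht1 hs1 h
    rcases hadj with (h | h) | (h | h) | (h | h)
    · exact h1 (Or.inl h)
    · exact h2 (Or.inl h)
    · exact h1 (Or.inr (Or.inl h))
    · exact h2 (Or.inr (Or.inl h))
    · exact h1 (Or.inr (Or.inr h))
    · exact h2 (Or.inr (Or.inr h))
  · intro t ht
    obtain ⟨k, hk, hkT⟩ := htri t ht
    have hkind := hLK.kind t ht
    obtain ⟨u, hu, huT⟩ := hit_idx hT (mem_tri (L := L) ht (show 3 + k < 6 by omega))
    have hodd : ∀ (s : Pt) (j : ℕ), j < 12 → j % 2 = 1 → s ∈ L → vl s.1 s.2 j ∈ T →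
        s ∈ L.toFinset.filter (fun s => vl s.1 s.2 1 ∈ T) := by
      intro s j hj hj1 hs hsT
      refine Finset.mem_filter.2 ⟨List.mem_toFinset.2 hs, ?_⟩
      exact ((hpar s hs j hj).1 hsT).1 hj1
    obtain ⟨⟨x, y⟩, τ⟩ := t
    simp only at hkT hkind hu
    have hτ : τ = 0 ∨ τ = 1 := by omega
    have hk3 : k = 0 ∨ k = 1 ∨ k = 2 := by omega
    rcases hτ with rfl | rfl <;> rcases hk3 with rfl | rfl | rfl
    · by_cases hL : (x, y) ∈ L
      · simp [att, spL, tabE, tab, sh, hL] at hu hkT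
        rcases hu with rfl | rfl
        · exact absurd huT hkT
        · exact ⟨(x, y), by simp [corners], hodd (x, y) 1 (by norm_num) rfl hL huT⟩
      · simp [att, spL, tabE, tab, sh, hL] at hu hkT
        subst hu
        exact absurd huT hkT
    · by_cases hL : (x + 1, y) ∈ L
      · simp [att, spL, tabE, tab, sh, hL] at hu hkT
        rcases hu with rfl | rfl
        · exact absurd huT hkT
        · exact ⟨(x + 1, y), by simp [corners], hodd (x + 1, y) 5 (by norm_num) rfl hL huT⟩
      · simp [att, spL, tabE, tab, sh, hL] at hu hkT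
        subst hu
        exact absurd huT hkT
    · by_cases hL : (x, y + 1) ∈ L
      · simp [att, spL, tabE, tab, sh, hL] at hu hkT
        rcases hu with rfl | rfl
        · exact absurd huT hkT
        · exact ⟨(x, y + 1), by simp [corners], hodd (x, y + 1) 9 (by norm_num) rfl hL huT⟩
      · simp [att, spL, tabE, tab, sh, hL] at hu hkT
        subst hu
        exact absurd huT hkT
    · by_cases hL : (x + 1, y) ∈ L
      · simp [att, spL, tabE, tab, sh, hL] at hu hkT
        rcases hu with rfl | rfl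
        · exact absurd huT hkT
        · exact ⟨(x + 1, y), by simp [corners], hodd (x + 1, y) 3 (by norm_num) rfl hL huT⟩
      · simp [att, spL, tabE, tab, sh, hL] at hu hkT
        subst hu
        exact absurd huT hkT
    · by_cases hL : (x + 1, y + 1) ∈ L
      · simp [att, spL, tabE, tab, sh, hL] at hu hkT
        rcases hu with rfl | rfl
        · exact absurd huT hkT
        · exact ⟨(x + 1, y + 1), by simp [corners],
            hodd (x + 1, y + 1) 7 (by norm_num) rfl hL huT⟩
      · simp [att, spL, tabE, tab, sh, hL] at hu hkT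
        subst hu
        exact absurd huT hkT
    · by_cases hL : (x, y + 1) ∈ L
      · simp [att, spL, tabE, tab, sh, hL] at hu hkT
        rcases hu with rfl | rfl
        · exact absurd huT hkT
        · exact ⟨(x, y + 1), by simp [corners], hodd (x, y + 1) 11 (by norm_num) rfl hL huT⟩
      · simp [att, spL, tabE, tab, sh, hL] at hu hkT
        subst hu
        exact absurd huT hkT

end Pool.Agent.Q217.LMD
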