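import Pool.Agent.Q231.LMD.Stubs
import Pool.Agent.H49R2.PC.V2

/-!
# Local metric dimension of planar graphs: the triangles are computed in polynomial time
-/

set_option autoImplicit false

namespace Pool.Agent.Q217.LMD

open Pool.Agent.NPC Pool.Agent.NPC.Cnt Pool.Agent.H49R2.PC Pool.Agent.Q231.LMD

variable {α : Type} [TEnc α]

@[fun_prop]
theorem poly_cand {s : α → Pt} (hs : Poly s) : Poly (fun a => cand (s a)) := by
  unfold cand
  fun_prop

@[fun_prop]
theorem poly_corners {t : α → Pt × ℕ} (ht : Poly t) : Poly (fun a => corners (t a)) := by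
  unfold corners
  fun_prop

theorem isBl_eq (L : List Pt) (t : Pt × ℕ) (b : List Pt) :
    isBl L t b = ((corners t).all (fun c => (!(decide (c ∈ L))) || decide (c ∈ b)) &&
      b.all (fun c => decide (c ∈ corners t))) := by
  unfold isBl
  have h : (fun c : Pt => decide (c ∈ L → c ∈ b)) =
      (fun c : Pt => (!(decide (c ∈ L))) || decide (c ∈ b)) := by
    funext c
    by_cases h1 : c ∈ L <;> by_cases h2 : c ∈ b <;> simp [h1, h2]
  rw [h]

theorem poly_isBl {L b : α → List Pt} {t : α → Pt × ℕ} (hL : Poly L) (ht : Poly t) (hb : Poly b) :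
    Poly (fun a => isBl (L a) (t a) (b a)) := by
  simp only [isBl_eq]
  fun_prop

theorem P1_ok : S_P1 := by
  have hl : Poly (fun B : List (List Pt) => latS B) := V2aux.poly_latS
  have hd : Poly (fun B : List (List Pt) => ((latS B).flatMap cand).dedup) := by
    refine Pool.Agent.H49R2.PY.Y1aux.dedup ?_
    exact NPC.Poly.flatMap (F := fun _ s => cand s) hl (poly_cand (NPC.Poly.snd NPC.Poly.id))
  refine NPC.Poly.filter (p := fun (B : List (List Pt)) (t : Pt × ℕ) =>
    B.any (fun b => isBl (latS B) t b)) hd ?_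
  refine NPC.Poly.any (p := fun (x : List (List Pt) × (Pt × ℕ)) (b : List Pt) =>
    isBl (latS x.1) x.2 b) (NPC.Poly.fst NPC.Poly.id) ?_
  exact poly_isBl
    (NPC.Poly.comp hl (NPC.Poly.fst (NPC.Poly.fst NPC.Poly.id)))
    (NPC.Poly.snd (NPC.Poly.fst NPC.Poly.id)) (NPC.Poly.snd NPC.Poly.id)

end Pool.Agent.Q217.LMD
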